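import Pool.Agent.Helper37.DG.Stmts

namespace Pool.Agent.Helper37.DG

open Finset

theorem vsw_one (x : ℝ) (h0 : 0 ≤ x) (h1 : x ≤ 1 / 2) :
    Real.exp (-x) ≤ (1 - x) * Real.exp (x ^ 2) := by
  have h2 : 1 ≤ (1 - x) * Real.exp (x + x ^ 2) := by
    have h3 := Real.quadratic_le_exp_of_nonneg (x := x + x ^ 2) (by positivity)
    have h4 : 0 ≤ 1 - x := by linarith
    have h5 := mul_le_mul_of_nonneg_left h3 h4
    have h6 : 1 ≤ (1 - x) * (1 + (x + x ^ 2) + (x + x ^ 2) ^ 2 / 2) := by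
      have h7 : 0 ≤ (1 - x) * (1 + x) ^ 2 / 2 - x := by nlinarith [mul_nonneg h0 h4, sq_nonneg x]
      have h8 : (1 - x) * (1 + (x + x ^ 2) + (x + x ^ 2) ^ 2 / 2) =
          1 + x ^ 2 * ((1 - x) * (1 + x) ^ 2 / 2 - x) := by ring
      rw [h8]
      have := mul_nonneg (sq_nonneg x) h7
      linarith
    linarith
  have h3 : Real.exp (-x) * Real.exp (x + x ^ 2) = Real.exp (x ^ 2) := by
    rw [← Real.exp_add]
    congr 1
    ring
  have h4 := Real.exp_pos (-x)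
  have h5 : Real.exp (-x) * 1 ≤ Real.exp (-x) * ((1 - x) * Real.exp (x + x ^ 2)) :=
    mul_le_mul_of_nonneg_left h2 h4.le
  have h6 : Real.exp (-x) * ((1 - x) * Real.exp (x + x ^ 2)) = (1 - x) * Real.exp (x ^ 2) := by
    rw [← h3]; ring
  linarith

theorem vsw_two (x : ℝ) (h0 : 0 ≤ x) (h1 : x ≤ 1 / 2) : Real.exp (-2 * x) ≤ 1 - x := by
  have h2 : 1 + 2 * x ≤ Real.exp (2 * x) := by linarith [Real.add_one_le_exp (2 * x)]
  have h3 : Real.exp (-2 * x) * Real.exp (2 * x) = 1 := by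
    rw [← Real.exp_add]
    simp
  have h4 := Real.exp_pos (-2 * x)
  have h5 : 1 ≤ (1 - x) * (1 + 2 * x) := by nlinarith
  have h6 : (1 - x) * (1 + 2 * x) ≤ (1 - x) * Real.exp (2 * x) :=
    mul_le_mul_of_nonneg_left h2 (by linarith)
  have h7 : Real.exp (-2 * x) * 1 ≤ Real.exp (-2 * x) * ((1 - x) * Real.exp (2 * x)) :=
    mul_le_mul_of_nonneg_left (by linarith) h4.le
  have h8 : Real.exp (-2 * x) * ((1 - x) * Real.exp (2 * x)) = 1 - x := by
    have : Real.exp (-2 * x) * ((1 - x) * Real.exp (2 * x)) =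
        (1 - x) * (Real.exp (-2 * x) * Real.exp (2 * x)) := by ring
    rw [this, h3, mul_one]
  linarith

theorem vsw_x {A : Finset ℕ} (hA : ∀ p ∈ A, 2 ≤ p) (p : ℕ) (hp : p ∈ A) :
    0 ≤ 1 / (p : ℝ) ∧ 1 / (p : ℝ) ≤ 1 / 2 := by
  have h2 : (2 : ℝ) ≤ p := by exact_mod_cast hA p hp
  exact ⟨by positivity, one_div_le_one_div_of_le (by norm_num) h2⟩

theorem vsw_sum {A : Finset ℕ} (hA : ∀ p ∈ A, 2 ≤ p) : ∑ p ∈ A, (1 / (p : ℝ)) ^ 2 ≤ 1 := by
  have h1 : A ⊆ Finset.Ioo 1 (A.sup id + 1) := by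
    intro p hp
    rw [Finset.mem_Ioo]
    have h3 : p ≤ A.sup id := Finset.le_sup (f := id) hp
    exact ⟨hA p hp, by omega⟩
  have h2 : ∑ p ∈ A, (1 / (p : ℝ)) ^ 2 ≤ ∑ p ∈ Finset.Ioo 1 (A.sup id + 1), ((p : ℝ) ^ 2)⁻¹ := by
    have h3 : ∑ p ∈ A, (1 / (p : ℝ)) ^ 2 = ∑ p ∈ A, ((p : ℝ) ^ 2)⁻¹ :=
      Finset.sum_congr rfl fun p _ => by rw [one_div, inv_pow]
    rw [h3]
    exact Finset.sum_le_sum_of_subset_of_nonneg h1 fun p _ _ => by positivity
  refine h2.trans ?_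
  have h4 := sum_Ioo_inv_sq_le (α := ℝ) 1 (A.sup id + 1)
  refine h4.trans ?_
  norm_num

theorem st_VSW : ST_VSW := by
  refine ⟨Real.exp 1, Real.one_le_exp zero_le_one, fun A hA => ⟨?_, ?_, ?_⟩⟩
  · unfold sw
    rw [← Finset.sum_neg_distrib, Real.exp_sum]
    refine Finset.prod_le_prod (fun p hp => ?_) fun p hp => ?_
    · have := (vsw_x hA p hp).2
      linarith
    · have := Real.add_one_le_exp (-(1 / (p : ℝ)))
      linarith
  · unfold sw
    rw [← Finset.sum_neg_distrib, Real.exp_sum]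
    have h1 : ∏ p ∈ A, Real.exp (-(1 / (p : ℝ))) ≤
        ∏ p ∈ A, ((1 - 1 / (p : ℝ)) * Real.exp ((1 / (p : ℝ)) ^ 2)) :=
      Finset.prod_le_prod (fun p _ => (Real.exp_pos _).le) fun p hp =>
        vsw_one _ (vsw_x hA p hp).1 (vsw_x hA p hp).2
    refine h1.trans ?_
    rw [Finset.prod_mul_distrib, ← Real.exp_sum, mul_comm]
    refine mul_le_mul_of_nonneg_right (Real.exp_le_exp.2 (vsw_sum hA)) ?_
    refine Finset.prod_nonneg fun p hp => ?_
    have := (vsw_x hA p hp).2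
    linarith
  · rw [Finset.mul_sum, Real.exp_sum]
    exact Finset.prod_le_prod (fun p _ => (Real.exp_pos _).le) fun p hp =>
        vsw_two _ (vsw_x hA p hp).1 (vsw_x hA p hp).2

end Pool.Agent.Helper37.DG
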